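import Mathlib
import Pool.Agent.W508.BealCount

/-!
# Products of small spread: in a large class `A X + B Y = C Z` has `N ^ o(1)` solutions up to `N`

The question asks whether `A X + B Y = C Z` has only finitely many solutions for which `X`, `Y`, `Z`
are products with `spread ^ 2 ≤ M * base` and `∑ (spread + 1) / degree ≤ F < 1` and
`gcd (X, Y) / rad (gcd (X, Y)) ≤ Q`. We prove: for every `ε > 0` there is `δ > 0`, depending only on
`ε`, such that the solutions with `C Z ≤ N` for which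

* each of the three products has spread `0` (a perfect power) or `(spread + 1) / degree ≤ δ`, or
* two of the three products have `(spread + 1) / degree ≤ δ`,

number `O (N ^ ε)`. The exponents, degrees, spreads and bases are otherwise arbitrary and vary with
the solution. With all spreads `0` this is the case of the Fermat-Catalan equation with coefficients
and with the condition on the gcd.

The only hypothesis is the published theorem of Darmon and Granville (1995), which concerns fixed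
exponents and fixed coefficients.

Proof. A product with `(s + 1) / n ≤ δ` and `s ^ 2 ≤ M b` has radical at most `e ^ (2 M) N ^ δ`. So in
the first case the equation is one between perfect powers times integers of small radical, and
unless all three are powers with bounded exponents one of the bases is small: these solutions are
counted by `Pool.Agent.W232.FC.sparseC` (helper232). If all three are powers with bounded exponents,
the condition on the gcd bounds the gcd, and after division by it the theorem of Darmon and Granville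
applies (coefficients composed of the primes up to `A + B + C + Q`). In the second case two entries
of small radical determine the third.
-/

namespace Pool.Agent.Results.MP_4ffbf9_nt.SparseSolutions

open Finset Pool.Agent.W508.Beal Pool.Agent.W232.FC

/-- The theorem of Darmon and Granville: for fixed exponents `p`, `q`, `r` with
`1 / p + 1 / q + 1 / r < 1` and fixed nonzero integers `a`, `b`, `c` only finitely many positive
integers `x`, `y`, `z` with `gcd (x, y, z) = 1` satisfy `a x ^ p + b y ^ q + c z ^ r = 0`. -/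
def DarmonGranville : Prop :=
  ∀ a b c : ℤ, a ≠ 0 → b ≠ 0 → c ≠ 0 → ∀ p q r : ℕ, 2 ≤ p → 2 ≤ q → 2 ≤ r →
    (1 : ℚ) / p + 1 / q + 1 / r < 1 →
    {v : ℕ × ℕ × ℕ | 0 < v.1 ∧ 0 < v.2.1 ∧ 0 < v.2.2 ∧ Nat.gcd v.1 (Nat.gcd v.2.1 v.2.2) = 1 ∧
      a * (v.1 : ℤ) ^ p + b * (v.2.1 : ℤ) ^ q + c * (v.2.2 : ℤ) ^ r = 0}.Finite

/-- `W` is the value of a product (finite sequence `l` of positive integers) of degree `n`, base
`b` (least term) and spread `s` (largest term minus least term). -/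
def IsProduct (W n b s : ℕ) : Prop :=
  ∃ l : List ℕ, l.length = n ∧ l.prod = W ∧ 0 < b ∧ b ∈ l ∧ b + s ∈ l ∧ ∀ x ∈ l, b ≤ x ∧ x ≤ b + s

/-- the radical: the product of the prime divisors -/
def radical (g : ℕ) : ℕ := ∏ p ∈ g.primeFactors, p

/-- `(s + 1) / n ≤ δ` -/
def Rich (δ : ℝ) (n s : ℕ) : Prop := ((s : ℝ) + 1) / n ≤ δ

/-- The triples `(X, Y, Z)` of positive integers with `A X + B Y = C Z ≤ N` which satisfy the
conditions of the problem for `F`, `Q`, `M`, for product representations such that each of the three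
has spread `0` or is rich, or two of the three are rich. -/
def Sols (A B C : ℕ) (F Q M δ : ℝ) (N : ℕ) : Set (ℕ × ℕ × ℕ) :=
  {v | 0 < v.1 ∧ 0 < v.2.1 ∧ 0 < v.2.2 ∧ A * v.1 + B * v.2.1 = C * v.2.2 ∧ C * v.2.2 ≤ N ∧
    (Nat.gcd v.1 v.2.1 : ℝ) / radical (Nat.gcd v.1 v.2.1) ≤ Q ∧
    ∃ n₁ n₂ n₃ b₁ b₂ b₃ s₁ s₂ s₃ : ℕ,
      IsProduct v.1 n₁ b₁ s₁ ∧ IsProduct v.2.1 n₂ b₂ s₂ ∧ IsProduct v.2.2 n₃ b₃ s₃ ∧
      (s₁ : ℝ) ^ 2 ≤ M * b₁ ∧ (s₂ : ℝ) ^ 2 ≤ M * b₂ ∧ (s₃ : ℝ) ^ 2 ≤ M * b₃ ∧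
      ((s₁ : ℝ) + 1) / n₁ + ((s₂ : ℝ) + 1) / n₂ + ((s₃ : ℝ) + 1) / n₃ ≤ F ∧
      (((s₁ = 0 ∨ Rich δ n₁ s₁) ∧ (s₂ = 0 ∨ Rich δ n₂ s₂) ∧ (s₃ = 0 ∨ Rich δ n₃ s₃)) ∨
        (Rich δ n₁ s₁ ∧ Rich δ n₂ s₂) ∨ (Rich δ n₁ s₁ ∧ Rich δ n₃ s₃) ∨
        (Rich δ n₂ s₂ ∧ Rich δ n₃ s₃))}

theorem rad_le_of_product {W n b s : ℕ} (h : IsProduct W n b s) :
    rad W ≤ (b + s) ^ (s + 1) := by
  obtain ⟨l, hl, hW, hb, hbl, hbsl, hx⟩ := h
  have hpos : 0 < ∏ x ∈ Finset.Icc b (b + s), x :=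
    Finset.prod_pos fun x hx => by rw [Finset.mem_Icc] at hx; omega
  have h1 : rad W ∣ ∏ x ∈ Finset.Icc b (b + s), x := by
    unfold rad
    refine Finset.prod_primes_dvd _ (fun p hp => (Nat.prime_of_mem_primeFactors hp).prime)
      fun p hp => ?_
    have hp' := Nat.prime_of_mem_primeFactors hp
    have hd : p ∣ l.prod := by rw [hW]; exact Nat.dvd_of_mem_primeFactors hp
    obtain ⟨x, hxl, hpx⟩ := (hp'.prime.dvd_prod_iff).1 hd
    exact hpx.trans (Finset.dvd_prod_of_mem (fun x => x) (Finset.mem_Icc.2 (hx x hxl)))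
  refine (Nat.le_of_dvd hpos h1).trans ?_
  calc ∏ x ∈ Finset.Icc b (b + s), x ≤ ∏ _x ∈ Finset.Icc b (b + s), (b + s) :=
        Finset.prod_le_prod' fun x hx => (Finset.mem_Icc.1 hx).2
    _ = (b + s) ^ (s + 1) := by
        rw [Finset.prod_const, Nat.card_Icc]
        congr 1
        omega

theorem pow_le_of_product {W n b s : ℕ} (h : IsProduct W n b s) : b ^ n ≤ W := by
  obtain ⟨l, hl, hW, hb, hbl, hbsl, hx⟩ := h
  rw [← hl, ← hW]
  exact List.pow_card_le_prod l b fun x hxl => (hx x hxl).1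

theorem eq_pow_of_product {W n b : ℕ} (h : IsProduct W n b 0) : W = b ^ n := by
  obtain ⟨l, hl, hW, hb, hbl, hbsl, hx⟩ := h
  rw [← hl, ← hW]
  exact List.prod_eq_pow_card l b fun x hxl => by
    have := hx x hxl
    omega

theorem degree_pos {W n b s : ℕ} (h : IsProduct W n b s) : 0 < n := by
  obtain ⟨l, hl, hW, hb, hbl, hbsl, hx⟩ := h
  rw [← hl]
  exact List.length_pos_of_mem hbl

theorem rad_small {W n b s N : ℕ} {M δ : ℝ} (h : IsProduct W n b s) (hs : (s : ℝ) ^ 2 ≤ M * b)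
    (hr : Rich δ n s) (hWN : W ≤ N) (hN : 1 ≤ N) :
    (rad W : ℝ) ≤ Real.exp (2 * M) * (N : ℝ) ^ δ := by
  have hn := degree_pos h
  have hb : 0 < b := by obtain ⟨l, -, -, hb, -⟩ := h; exact hb
  have hbR : (0 : ℝ) < b := by exact_mod_cast hb
  have hnR : (0 : ℝ) < n := by exact_mod_cast hn
  have hN1 : (1 : ℝ) ≤ N := by exact_mod_cast hN
  have h1 : (rad W : ℝ) ≤ ((b : ℝ) + s) ^ (s + 1) := by exact_mod_cast rad_le_of_product h
  have h2 : ((b : ℝ) + s) ^ (s + 1) ≤ Real.exp (2 * M) * (b : ℝ) ^ (s + 1) := by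
    have h3 : ((b : ℝ) + s) = b * (1 + s / b) := by field_simp
    rw [h3, mul_pow, mul_comm]
    refine mul_le_mul_of_nonneg_right ?_ (by positivity)
    have h4 : (1 : ℝ) + s / b ≤ Real.exp (s / b) := by
      rw [add_comm]
      exact Real.add_one_le_exp _
    calc ((1 : ℝ) + s / b) ^ (s + 1) ≤ (Real.exp (s / b)) ^ (s + 1) :=
          pow_le_pow_left₀ (by positivity) h4 _
      _ = Real.exp (((s + 1 : ℕ) : ℝ) * (s / b)) := by rw [Real.exp_nat_mul]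
      _ ≤ Real.exp (2 * M) := by
          refine Real.exp_le_exp.2 ?_
          rw [← mul_div_assoc, div_le_iff₀ hbR]
          have h5 : ((s + 1 : ℕ) : ℝ) * s ≤ 2 * (s : ℝ) ^ 2 := by
            rcases Nat.eq_zero_or_pos s with rfl | hs0
            · simp
            · have : (1 : ℝ) ≤ s := by exact_mod_cast hs0
              push_cast
              nlinarith
          linarith
  have h6 : (b : ℝ) ^ (s + 1) ≤ (N : ℝ) ^ δ := by
    have h7 : (b : ℝ) ^ n ≤ N := by exact_mod_cast (pow_le_of_product h).trans hWN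
    have h8 : (b : ℝ) ^ (s + 1) = ((b : ℝ) ^ n) ^ (((s : ℝ) + 1) / n) := by
      rw [← Real.rpow_natCast, ← Real.rpow_natCast, ← Real.rpow_mul hbR.le]
      congr 1
      push_cast
      field_simp
    rw [h8]
    calc ((b : ℝ) ^ n) ^ (((s : ℝ) + 1) / n) ≤ (N : ℝ) ^ (((s : ℝ) + 1) / n) :=
          Real.rpow_le_rpow (by positivity) h7 (by positivity)
      _ ≤ (N : ℝ) ^ δ := Real.rpow_le_rpow_of_exponent_le hN1 hr
  calc (rad W : ℝ) ≤ ((b : ℝ) + s) ^ (s + 1) := h1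
    _ ≤ Real.exp (2 * M) * (b : ℝ) ^ (s + 1) := h2
    _ ≤ Real.exp (2 * M) * (N : ℝ) ^ δ := mul_le_mul_of_nonneg_left h6 (Real.exp_pos _).le

/-- a perfect power up to a factor of small radical -/
def Good (Y : ℝ) (w : ℤ) : Prop :=
  ∃ (a x : ℤ) (l : ℕ), a ≠ 0 ∧ x ≠ 0 ∧ 2 ≤ l ∧ w = a * x ^ l ∧ (rad a.natAbs : ℝ) ≤ Y

/-- the same with small base -/
def Small (Y : ℝ) (w : ℤ) : Prop :=
  ∃ (a x : ℤ) (l : ℕ), a ≠ 0 ∧ x ≠ 0 ∧ 2 ≤ l ∧ w = a * x ^ l ∧ (rad a.natAbs : ℝ) ≤ Y ∧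
    (x.natAbs : ℝ) ≤ Y

theorem Small.good {Y : ℝ} {w : ℤ} (h : Small Y w) : Good Y w := by
  obtain ⟨a, x, l, h1, h2, h3, h4, h5, -⟩ := h
  exact ⟨a, x, l, h1, h2, h3, h4, h5⟩

theorem mem_SolC {N : ℕ} {Y : ℝ} {t : ℤ × ℤ × ℤ} (hsum : t.1 + t.2.1 = t.2.2)
    (h1 : t.1.natAbs ≤ N) (h2 : t.2.1.natAbs ≤ N) (h3 : t.2.2.natAbs ≤ N) (g1 : Good Y t.1)
    (g2 : Good Y t.2.1) (g3 : Good Y t.2.2) (hs : Small Y t.1 ∨ Small Y t.2.1 ∨ Small Y t.2.2) :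
    t ∈ SolC N Y := by
  rcases hs with hs | hs | hs
  · obtain ⟨a, x, l, e1, e2, e3, e4, e5, e6⟩ := hs
    obtain ⟨b, y, m, f1, f2, f3, f4, f5⟩ := g2
    obtain ⟨c, z, n, k1, k2, k3, k4, k5⟩ := g3
    exact ⟨hsum, h1, h2, h3, a, b, c, x, y, z, l, m, n, e1, f1, k1, e2, f2, k2, e3, f3, k3,
      Prod.ext e4 (Prod.ext f4 k4), e5, f5, k5, Or.inl e6⟩
  · obtain ⟨a, x, l, e1, e2, e3, e4, e5⟩ := g1
    obtain ⟨b, y, m, f1, f2, f3, f4, f5, f6⟩ := hs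
    obtain ⟨c, z, n, k1, k2, k3, k4, k5⟩ := g3
    exact ⟨hsum, h1, h2, h3, a, b, c, x, y, z, l, m, n, e1, f1, k1, e2, f2, k2, e3, f3, k3,
      Prod.ext e4 (Prod.ext f4 k4), e5, f5, k5, Or.inr (Or.inl f6)⟩
  · obtain ⟨a, x, l, e1, e2, e3, e4, e5⟩ := g1
    obtain ⟨b, y, m, f1, f2, f3, f4, f5⟩ := g2
    obtain ⟨c, z, n, k1, k2, k3, k4, k5, k6⟩ := hs
    exact ⟨hsum, h1, h2, h3, a, b, c, x, y, z, l, m, n, e1, f1, k1, e2, f2, k2, e3, f3, k3,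
      Prod.ext e4 (Prod.ext f4 k4), e5, f5, k5, Or.inr (Or.inr k6)⟩

theorem rad_le_self {A : ℕ} (hA : 0 < A) : rad A ≤ A := by
  unfold rad
  exact Nat.le_of_dvd hA (Nat.prod_primeFactors_dvd A)

theorem classify {A W n b s N R : ℕ} {M δ Y : ℝ} (hA : 0 < A) (hW : 0 < W) (hN : 1 ≤ N)
    (hAW : A * W ≤ N) (h : IsProduct W n b s) (hs : (s : ℝ) ^ 2 ≤ M * b)
    (hP : s = 0 ∨ Rich δ n s) (hn : 2 ≤ n) (hR : 1 ≤ R)
    (hY1 : (A : ℝ) * (Real.exp (2 * M) * (N : ℝ) ^ δ) ≤ Y) (hY2 : (1 : ℝ) ≤ Y)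
    (hY3 : (N : ℝ) ^ ((1 : ℝ) / R) ≤ Y) (hY4 : (A : ℝ) ≤ Y) :
    Small Y ((A * W : ℕ) : ℤ) ∨ (Good Y ((A * W : ℕ) : ℤ) ∧ s = 0 ∧ n < R) := by
  have hWN : W ≤ N := (Nat.le_mul_of_pos_left W hA).trans hAW
  rcases hP with h0 | hr
  · subst h0
    have hWb := eq_pow_of_product h
    have hb : 0 < b := by obtain ⟨l, -, -, hb, -⟩ := h; exact hb
    have hgood : ((A * W : ℕ) : ℤ) = (A : ℤ) * (b : ℤ) ^ n := by rw [hWb]; push_cast; ring
    have hradA : (rad (A : ℤ).natAbs : ℝ) ≤ Y := by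
      rw [Int.natAbs_natCast]
      exact le_trans (by exact_mod_cast rad_le_self hA) hY4
    rcases Nat.lt_or_ge n R with hlt | hge
    · right
      exact ⟨⟨A, b, n, by exact_mod_cast hA.ne', by exact_mod_cast hb.ne', hn, hgood, hradA⟩,
        rfl, hlt⟩
    · left
      refine ⟨A, b, n, by exact_mod_cast hA.ne', by exact_mod_cast hb.ne', hn, hgood, hradA, ?_⟩
      rw [Int.natAbs_natCast]
      have h1 : b ^ R ≤ N := (Nat.pow_le_pow_right hb hge).trans (by rw [← hWb]; exact hWN)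
      have h2 : ((b : ℝ) ^ R) ≤ N := by exact_mod_cast h1
      have hR0 : (R : ℝ) ≠ 0 := by
        have : R ≠ 0 := by omega
        exact_mod_cast this
      have h3 : (b : ℝ) = ((b : ℝ) ^ R) ^ ((1 : ℝ) / R) := by
        rw [← Real.rpow_natCast, ← Real.rpow_mul (by positivity), mul_one_div_cancel hR0,
          Real.rpow_one]
      rw [h3]
      exact (Real.rpow_le_rpow (by positivity) h2 (by positivity)).trans hY3
  · left
    refine ⟨((A * W : ℕ) : ℤ), 1, 2, by positivity, one_ne_zero, le_rfl, by ring, ?_, by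
      simpa using hY2⟩
    rw [Int.natAbs_natCast]
    have h1 : (rad (A * W) : ℝ) ≤ (A : ℝ) * rad W := by
      have h2 := rad_mul_le hA.ne' hW.ne'
      have h3 := rad_le_self hA
      calc (rad (A * W) : ℝ) ≤ ((rad A * rad W : ℕ) : ℝ) := by exact_mod_cast h2
        _ ≤ ((A * rad W : ℕ) : ℝ) := by exact_mod_cast Nat.mul_le_mul_right _ h3
        _ = (A : ℝ) * rad W := by push_cast; ring
    refine h1.trans (le_trans ?_ hY1)
    exact mul_le_mul_of_nonneg_left (rad_small h hs hr hWN hN) (by positivity)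


theorem smooth_part (S : Finset ℕ) : ∀ A : ℕ, 0 < A → ∃ s a : ℕ, A = s * a ∧
    (∀ p : ℕ, p.Prime → p ∣ s → p ∈ S) ∧ (∀ p : ℕ, p.Prime → p ∈ S → ¬ p ∣ a) := by
  intro A
  induction A using Nat.strong_induction_on with
  | _ A ih =>
    intro hA
    by_cases h : ∃ p : ℕ, p.Prime ∧ p ∈ S ∧ p ∣ A
    · obtain ⟨p, hp, hpS, B, rfl⟩ := h
      have hB : 0 < B := Nat.pos_of_mul_pos_left hA
      obtain ⟨s, a, rfl, h1, h2⟩ := ih B (by nlinarith [hp.two_le]) hB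
      refine ⟨p * s, a, by ring, fun q hq hd => ?_, h2⟩
      rcases hq.dvd_mul.1 hd with h3 | h3
      · rw [(Nat.prime_dvd_prime_iff_eq hq hp).1 h3]
        exact hpS
      · exact h1 q hq h3
    · push Not at h
      refine ⟨1, A, by ring, fun p hp hd => ?_, fun p hp hpS => h p hp hpS⟩
      exact absurd (Nat.dvd_one.1 hd) hp.ne_one

theorem spower_quot {S : Finset ℕ} {A b x g : ℕ} (hA : 0 < A) (hb : 0 < b) (hg : 0 < g)
    (hAS : ∀ p : ℕ, p.Prime → p ∣ A → p ∈ S) (hgS : ∀ p : ℕ, p.Prime → p ∣ g → p ∈ S)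
    (hd : g ∣ A * b ^ x) : SPower S x (((A * b ^ x / g : ℕ)) : ℤ) := by
  obtain ⟨s, a, rfl, h1, h2⟩ := smooth_part S b hb
  have hcop : Nat.Coprime g (a ^ x) := by
    refine Nat.Coprime.pow_right _ ?_
    by_contra hc
    obtain ⟨p, hp, hpd⟩ := Nat.exists_prime_and_dvd hc
    have d1 : p ∣ g := hpd.trans (Nat.gcd_dvd_left _ _)
    have d2 : p ∣ a := hpd.trans (Nat.gcd_dvd_right _ _)
    exact h2 p hp (hgS p hp d1) d2
  have he : A * (s * a) ^ x = A * s ^ x * a ^ x := by rw [mul_pow]; ring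
  have hds : g ∣ A * s ^ x := by
    rw [he] at hd
    exact hcop.dvd_of_dvd_mul_right hd
  have hpos : 0 < A * (s * a) ^ x / g :=
    Nat.div_pos (Nat.le_of_dvd (Nat.mul_pos hA (pow_pos hb x)) hd) hg
  have heq : A * (s * a) ^ x / g = A * s ^ x / g * a ^ x := by
    rw [he, Nat.div_mul_right_comm hds]
  refine ⟨by exact_mod_cast hpos.ne', ((A * s ^ x / g : ℕ) : ℤ), (a : ℤ), ?_, fun ℓ hℓ hdvd => ?_⟩
  · rw [heq]
    push_cast
    rfl
  · have h3 : ℓ ∣ A * s ^ x / g := by exact_mod_cast hdvd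
    have h4 : ℓ ∣ A * s ^ x := h3.trans (Nat.div_dvd_of_dvd hds)
    rcases hℓ.dvd_mul.1 h4 with h5 | h5
    · exact hAS ℓ hℓ h5
    · exact h1 ℓ hℓ (hℓ.dvd_of_dvd_pow h5)

/-- primes dividing the gcd of two perfect powers are bounded -/
theorem prime_le {g q : ℕ} {Q : ℝ} (hg : 0 < g) (hQ : (g : ℝ) / radical g ≤ Q) (hq : q.Prime)
    (hd : q * q ∣ g) : q ≤ ⌊Q⌋₊ := by
  have hrd : radical g ∣ g := Nat.prod_primeFactors_dvd g
  obtain ⟨h, hh⟩ := hrd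
  have hrpos : 0 < radical g := Finset.prod_pos fun p hp => (Nat.prime_of_mem_primeFactors hp).pos
  have hQ' : (h : ℝ) ≤ Q := by
    have h1 : (g : ℝ) = (radical g : ℝ) * h := by exact_mod_cast hh
    have hr0 : (radical g : ℝ) ≠ 0 := by exact_mod_cast hrpos.ne'
    rw [h1, mul_div_cancel_left₀ _ hr0] at hQ
    exact hQ
  have hmem : q ∈ g.primeFactors :=
    Nat.mem_primeFactors.2 ⟨hq, (dvd_mul_right q q).trans hd, hg.ne'⟩
  have hsplit : radical g = q * ∏ p ∈ g.primeFactors.erase q, p :=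
    (Finset.mul_prod_erase g.primeFactors (fun p => p) hmem).symm
  have hcop : Nat.Coprime q (∏ p ∈ g.primeFactors.erase q, p) :=
    Nat.Coprime.prod_right fun p hp => by
      rw [Finset.mem_erase] at hp
      exact (Nat.coprime_primes hq (Nat.prime_of_mem_primeFactors hp.2)).2 (Ne.symm hp.1)
  have h2 : q ∣ (∏ p ∈ g.primeFactors.erase q, p) * h := by
    have h3 : q * q ∣ q * ((∏ p ∈ g.primeFactors.erase q, p) * h) := by
      rw [← mul_assoc, ← hsplit, ← hh]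
      exact hd
    exact Nat.dvd_of_mul_dvd_mul_left hq.pos h3
  have h4 : q ∣ h := hcop.dvd_of_dvd_mul_left h2
  have hhpos : 0 < h := by
    rcases Nat.eq_zero_or_pos h with h0 | h0
    · rw [h0, mul_zero] at hh
      omega
    · exact h0
  exact (Nat.le_of_dvd hhpos h4).trans (Nat.le_floor hQ')

/-- bound for `g` -/
theorem gcd_le {g : ℕ} {Q : ℝ} (hg : 0 < g) (hQ : (g : ℝ) / radical g ≤ Q)
    (hsq : ∀ q : ℕ, q.Prime → q ∣ g → q * q ∣ g) :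
    g ≤ ⌊Q⌋₊ * ∏ p ∈ (Finset.Icc 1 ⌊Q⌋₊), p := by
  have hrd : radical g ∣ g := Nat.prod_primeFactors_dvd g
  obtain ⟨h, hh⟩ := hrd
  have hrpos : 0 < radical g := Finset.prod_pos fun p hp => (Nat.prime_of_mem_primeFactors hp).pos
  have hQ' : (h : ℝ) ≤ Q := by
    have h1 : (g : ℝ) = (radical g : ℝ) * h := by exact_mod_cast hh
    have hr0 : (radical g : ℝ) ≠ 0 := by exact_mod_cast hrpos.ne'
    rw [h1, mul_div_cancel_left₀ _ hr0] at hQ
    exact hQ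
  have h1 : radical g ≤ ∏ p ∈ (Finset.Icc 1 ⌊Q⌋₊), p := by
    unfold radical
    refine Finset.prod_le_prod_of_subset_of_one_le' (fun q hq => ?_) fun p hp _ =>
      (Finset.mem_Icc.1 hp).1
    have hq' := Nat.prime_of_mem_primeFactors hq
    exact Finset.mem_Icc.2 ⟨hq'.one_le,
      prime_le hg hQ hq' (hsq q hq' (Nat.dvd_of_mem_primeFactors hq))⟩
  calc g = h * radical g := by rw [mul_comm]; exact hh
    _ ≤ ⌊Q⌋₊ * ∏ p ∈ (Finset.Icc 1 ⌊Q⌋₊), p := Nat.mul_le_mul (Nat.le_floor hQ') h1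

theorem finite_case (hDG : DarmonGranville) (A B C : ℕ) (hA : 0 < A) (hB : 0 < B) (hC : 0 < C)
    (Q : ℝ) (R : ℕ) :
    {v : ℕ × ℕ × ℕ | 0 < v.1 ∧ 0 < v.2.1 ∧ 0 < v.2.2 ∧ A * v.1 + B * v.2.1 = C * v.2.2 ∧
      (Nat.gcd v.1 v.2.1 : ℝ) / radical (Nat.gcd v.1 v.2.1) ≤ Q ∧
      ∃ n₁ n₂ n₃ b₁ b₂ b₃ : ℕ, v.1 = b₁ ^ n₁ ∧ v.2.1 = b₂ ^ n₂ ∧ v.2.2 = b₃ ^ n₃ ∧
        2 ≤ n₁ ∧ 2 ≤ n₂ ∧ 2 ≤ n₃ ∧ n₁ < R ∧ n₂ < R ∧ n₃ < R ∧
        (1 : ℚ) / n₁ + 1 / n₂ + 1 / n₃ < 1}.Finite := by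
  classical
  let L : ℕ := A + B + C + ⌊Q⌋₊
  let S : Finset ℕ := Finset.Icc 1 L
  have hS : ∀ ℓ ∈ S, 1 ≤ ℓ := fun ℓ hℓ => (Finset.mem_Icc.1 hℓ).1
  have hF := finite_bounded hDG S hS R
  let G₀ : ℕ := A * B * (⌊Q⌋₊ * ∏ p ∈ (Finset.Icc 1 ⌊Q⌋₊), p)
  refine (((Finset.finite_toSet (Finset.Icc 0 G₀)).prod hF).image
    (fun w : ℕ × (ℤ × ℤ × ℤ) => (w.1 * w.2.1.natAbs / A, w.1 * w.2.2.1.natAbs / B,
      w.1 * w.2.2.2.natAbs / C))).subset ?_
  rintro ⟨X, Y, Z⟩ ⟨hX, hY, hZ, he, hQ, n₁, n₂, n₃, b₁, b₂, b₃, e1, e2, e3, m1, m2, m3, r1, r2,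
    r3, hhyp⟩
  simp only at hX hY hZ he hQ e1 e2 e3
  have hAX : 0 < A * X := Nat.mul_pos hA hX
  have hBY : 0 < B * Y := Nat.mul_pos hB hY
  set g := Nat.gcd X Y with hgdef
  have hg : 0 < g := Nat.gcd_pos_of_pos_left _ hX
  have hsq : ∀ q : ℕ, q.Prime → q ∣ g → q * q ∣ g := by
    intro q hq hqg
    have d1 : q ∣ b₁ := hq.dvd_of_dvd_pow (e1 ▸ hqg.trans (Nat.gcd_dvd_left X Y))
    have d2 : q ∣ b₂ := hq.dvd_of_dvd_pow (e2 ▸ hqg.trans (Nat.gcd_dvd_right X Y))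
    refine Nat.dvd_gcd ?_ ?_
    · rw [e1, ← sq]
      exact (pow_dvd_pow_of_dvd d1 2).trans (pow_dvd_pow b₁ m1)
    · rw [e2, ← sq]
      exact (pow_dvd_pow_of_dvd d2 2).trans (pow_dvd_pow b₂ m2)
  set G := Nat.gcd (A * X) (B * Y) with hGdef
  have hG : 0 < G := Nat.gcd_pos_of_pos_left _ hAX
  have dA : G ∣ A * X := Nat.gcd_dvd_left _ _
  have dB : G ∣ B * Y := Nat.gcd_dvd_right _ _
  have dC : G ∣ C * Z := by rw [← he]; exact dvd_add dA dB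
  have hGle : G ≤ G₀ := by
    have h1 : G ∣ A * B * g := by
      have h2 : G ∣ Nat.gcd (A * B * X) (A * B * Y) :=
        Nat.dvd_gcd (dA.trans ⟨B, by ring⟩) (dB.trans ⟨A, by ring⟩)
      rwa [Nat.gcd_mul_left] at h2
    have h3 := Nat.le_of_dvd (Nat.mul_pos (Nat.mul_pos hA hB) hg) h1
    exact h3.trans (Nat.mul_le_mul_left _ (gcd_le hg hQ hsq))
  have hmemS : ∀ p : ℕ, p.Prime → p ≤ L → p ∈ S := fun p hp hle =>
    Finset.mem_Icc.2 ⟨hp.one_le, hle⟩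
  have hAS : ∀ p : ℕ, p.Prime → p ∣ A → p ∈ S := fun p hp hd =>
    hmemS p hp (by have := Nat.le_of_dvd hA hd; simp only [L]; omega)
  have hBS : ∀ p : ℕ, p.Prime → p ∣ B → p ∈ S := fun p hp hd =>
    hmemS p hp (by have := Nat.le_of_dvd hB hd; simp only [L]; omega)
  have hCS : ∀ p : ℕ, p.Prime → p ∣ C → p ∈ S := fun p hp hd =>
    hmemS p hp (by have := Nat.le_of_dvd hC hd; simp only [L]; omega)
  have hGS : ∀ p : ℕ, p.Prime → p ∣ G → p ∈ S := by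
    intro p hp hd
    rcases hp.dvd_mul.1 (hd.trans dA) with h1 | h1
    · exact hAS p hp h1
    rcases hp.dvd_mul.1 (hd.trans dB) with h2 | h2
    · exact hBS p hp h2
    have h3 := prime_le hg hQ hp (hsq p hp (Nat.dvd_gcd h1 h2))
    exact hmemS p hp (by simp only [L]; omega)
  have b1pos : 0 < b₁ := Nat.pos_of_ne_zero fun h => by
    rw [h, zero_pow (by omega)] at e1; omega
  have b2pos : 0 < b₂ := Nat.pos_of_ne_zero fun h => by
    rw [h, zero_pow (by omega)] at e2; omega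
  have b3pos : 0 < b₃ := Nat.pos_of_ne_zero fun h => by
    rw [h, zero_pow (by omega)] at e3; omega
  refine ⟨(G, ((A * X / G : ℕ) : ℤ), ((B * Y / G : ℕ) : ℤ), ((C * Z / G : ℕ) : ℤ)),
    ⟨by simp [hGle], ?_⟩, ?_⟩
  · refine ⟨?_, ?_, n₁, n₂, n₃, m1, m2, m3, hhyp, ?_, ?_, ?_, r1, r2, r3⟩
    · change ((A * X / G : ℕ) : ℤ) + ((B * Y / G : ℕ) : ℤ) = ((C * Z / G : ℕ) : ℤ)
      rw [← he, Nat.add_div_of_dvd_right dA]
      push_cast
      rfl
    · change IsCoprime ((A * X / G : ℕ) : ℤ) ((B * Y / G : ℕ) : ℤ)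
      rw [Nat.isCoprime_iff_coprime]
      exact Nat.coprime_div_gcd_div_gcd hG
    · change SPower S n₁ ((A * X / G : ℕ) : ℤ)
      rw [e1] at dA ⊢
      exact spower_quot hA b1pos hG hAS hGS dA
    · change SPower S n₂ ((B * Y / G : ℕ) : ℤ)
      rw [e2] at dB ⊢
      exact spower_quot hB b2pos hG hBS hGS dB
    · change SPower S n₃ ((C * Z / G : ℕ) : ℤ)
      rw [e3] at dC ⊢
      exact spower_quot hC b3pos hG hCS hGS dC
  · simp only [Int.natAbs_natCast]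
    rw [Nat.mul_div_cancel' dA, Nat.mul_div_cancel' dB, Nat.mul_div_cancel' dC,
      Nat.mul_div_cancel_left _ hA, Nat.mul_div_cancel_left _ hB, Nat.mul_div_cancel_left _ hC]


/-- integers up to `N` with radical at most `Y` -/
def Thin (N : ℕ) (Y : ℝ) : Set ℕ := {m | 1 ≤ m ∧ m ≤ N ∧ (rad m : ℝ) ≤ Y}

theorem thin_finite (N : ℕ) (Y : ℝ) : (Thin N Y).Finite :=
  (Set.finite_Iic N).subset fun _ h => h.2.1

/-- triples determined by two thin entries -/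
theorem two_thin {A B C N : ℕ} {Y : ℝ} (hA : 0 < A) (hB : 0 < B) (hC : 0 < C)
    (s : Set (ℕ × ℕ × ℕ)) (hs : ∀ v ∈ s, A * v.1 + B * v.2.1 = C * v.2.2)
    (h : ∀ v ∈ s, (v.1 ∈ Thin N Y ∧ v.2.1 ∈ Thin N Y) ∨ (v.1 ∈ Thin N Y ∧ v.2.2 ∈ Thin N Y) ∨
      (v.2.1 ∈ Thin N Y ∧ v.2.2 ∈ Thin N Y)) :
    s.Finite ∧ s.ncard ≤ 3 * ((Thin N Y).ncard * (Thin N Y).ncard) := by
  have hT := thin_finite N Y
  have hTT := hT.prod hT
  have key : ∀ (t : Set (ℕ × ℕ × ℕ)) (f : ℕ × ℕ × ℕ → ℕ × ℕ), (∀ v ∈ t, f v ∈ Thin N Y ×ˢ Thin N Y) →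
      Set.InjOn f t → t.Finite ∧ t.ncard ≤ (Thin N Y).ncard * (Thin N Y).ncard := by
    intro t f hf hinj
    refine ⟨Set.Finite.of_finite_image (hTT.subset (Set.image_subset_iff.2 hf)) hinj, ?_⟩
    rw [← Set.ncard_prod]
    exact Set.ncard_le_ncard_of_injOn f hf hinj hTT
  obtain ⟨f1, c1⟩ := key {v ∈ s | v.1 ∈ Thin N Y ∧ v.2.1 ∈ Thin N Y} (fun v => (v.1, v.2.1))
    (fun v hv => ⟨hv.2.1, hv.2.2⟩) (by
      rintro ⟨x, y, z⟩ hv ⟨x', y', z'⟩ hv' hh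
      simp only [Prod.mk.injEq] at hh
      obtain ⟨rfl, rfl⟩ := hh
      have e1 := hs _ hv.1
      have e2 := hs _ hv'.1
      simp only at e1 e2
      rw [e1] at e2
      have := Nat.eq_of_mul_eq_mul_left hC e2
      rw [this])
  obtain ⟨f2, c2⟩ := key {v ∈ s | v.1 ∈ Thin N Y ∧ v.2.2 ∈ Thin N Y} (fun v => (v.1, v.2.2))
    (fun v hv => ⟨hv.2.1, hv.2.2⟩) (by
      rintro ⟨x, y, z⟩ hv ⟨x', y', z'⟩ hv' hh
      simp only [Prod.mk.injEq] at hh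
      obtain ⟨rfl, rfl⟩ := hh
      have e1 := hs _ hv.1
      have e2 := hs _ hv'.1
      simp only at e1 e2
      have e3 : B * y = B * y' := by omega
      have := Nat.eq_of_mul_eq_mul_left hB e3
      rw [this])
  obtain ⟨f3, c3⟩ := key {v ∈ s | v.2.1 ∈ Thin N Y ∧ v.2.2 ∈ Thin N Y} (fun v => (v.2.1, v.2.2))
    (fun v hv => ⟨hv.2.1, hv.2.2⟩) (by
      rintro ⟨x, y, z⟩ hv ⟨x', y', z'⟩ hv' hh
      simp only [Prod.mk.injEq] at hh
      obtain ⟨rfl, rfl⟩ := hh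
      have e1 := hs _ hv.1
      have e2 := hs _ hv'.1
      simp only at e1 e2
      have e3 : A * x = A * x' := by omega
      have := Nat.eq_of_mul_eq_mul_left hA e3
      rw [this])
  have hsub : s ⊆ {v ∈ s | v.1 ∈ Thin N Y ∧ v.2.1 ∈ Thin N Y} ∪
      ({v ∈ s | v.1 ∈ Thin N Y ∧ v.2.2 ∈ Thin N Y} ∪
        {v ∈ s | v.2.1 ∈ Thin N Y ∧ v.2.2 ∈ Thin N Y}) := by
    intro v hv
    rcases h v hv with h1 | h1 | h1
    · exact Or.inl ⟨hv, h1⟩
    · exact Or.inr (Or.inl ⟨hv, h1⟩)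
    · exact Or.inr (Or.inr ⟨hv, h1⟩)
  refine ⟨(f1.union (f2.union f3)).subset hsub, ?_⟩
  have h1 := Set.ncard_le_ncard hsub (f1.union (f2.union f3))
  have h2 := h1.trans (Set.ncard_union_le _ _)
  have h3 := Set.ncard_union_le {v ∈ s | v.1 ∈ Thin N Y ∧ v.2.2 ∈ Thin N Y}
        {v ∈ s | v.2.1 ∈ Thin N Y ∧ v.2.2 ∈ Thin N Y}
  omega

theorem sols_fin (A B C : ℕ) (hA : 0 < A) (hB : 0 < B) (hC : 0 < C) (F Q M δ : ℝ) (N : ℕ) :
    (Sols A B C F Q M δ N).Finite := by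
  refine (Pool.Agent.W232.FC.box_finite N).subset ?_
  rintro v ⟨h1, h2, h3, he, hN, -⟩
  have e1 := Nat.le_mul_of_pos_left v.1 hA
  have e2 := Nat.le_mul_of_pos_left v.2.1 hB
  have e3 := Nat.le_mul_of_pos_left v.2.2 hC
  exact ⟨by omega, by omega, by omega⟩

theorem sols_mono {A B C : ℕ} {F Q M δ : ℝ} {N N' : ℕ} (h : N ≤ N') :
    Sols A B C F Q M δ N ⊆ Sols A B C F Q M δ N' := by
  rintro v ⟨h1, h2, h3, he, hN, hr⟩
  exact ⟨h1, h2, h3, he, hN.trans h, hr⟩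

theorem two_le {F x y : ℝ} {n s : ℕ} (hn : 0 < n) (hF : F < 1) (hx : 0 ≤ x) (hy : 0 ≤ y)
    (h : ((s : ℝ) + 1) / n + x + y ≤ F) : 2 ≤ n := by
  by_contra hc
  have h1 : n = 1 := by omega
  subst h1
  have h2 : (0 : ℝ) ≤ s := Nat.cast_nonneg s
  norm_num at h
  linarith

/-- For every `ε > 0` there is `δ > 0` such that for all `A`, `B`, `C`, `F < 1`, `Q`, `M` the number
of solutions up to `N` for which each of the three products has spread `0` or is rich (for `δ`), or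
two of them are rich, is `O (N ^ ε)`. -/
theorem result (hDG : DarmonGranville) :
    ∀ ε : ℝ, 0 < ε → ∃ δ : ℝ, 0 < δ ∧
      ∀ A B C : ℕ, 0 < A → 0 < B → 0 < C → ∀ F Q M : ℝ, F < 1 → ∃ K : ℝ, ∀ N : ℕ, 1 ≤ N →
        (Sols A B C F Q M δ N).Finite ∧ ((Sols A B C F Q M δ N).ncard : ℝ) ≤ K * (N : ℝ) ^ ε := by
  intro ε hε
  obtain ⟨δ₀, hδ₀, X₀, hX₀⟩ := Pool.Agent.W232.FC.sparseC ε hε
  set δ : ℝ := min (δ₀ / 2) (ε / 16) with hδdef
  have hδ : 0 < δ := lt_min (by positivity) (by positivity)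
  have hδ1 : 2 * δ ≤ δ₀ := by
    have := min_le_left (δ₀ / 2) (ε / 16)
    rw [← hδdef] at this
    linarith
  have hδ2 : 16 * δ ≤ ε := by
    have := min_le_right (δ₀ / 2) (ε / 16)
    rw [← hδdef] at this
    linarith
  obtain ⟨X₁, hX₁⟩ := Pool.Agent.W505.FC.NA.main (2 * δ) (by positivity)
  obtain ⟨R, hR⟩ : ∃ R : ℕ, 1 / δ₀ ≤ R := exists_nat_ge _
  have hR0 : (0 : ℝ) < R := lt_of_lt_of_le (by positivity) hR
  have hR1 : 1 ≤ R := by exact_mod_cast hR0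
  have hRδ : (1 : ℝ) / R ≤ δ₀ := by
    rw [div_le_iff₀ hR0]
    rw [div_le_iff₀ hδ₀] at hR
    linarith
  refine ⟨δ, hδ, ?_⟩
  intro A B C hA hB hC F Q M hF
  set D : ℝ := ((A : ℝ) + B + C) * (Real.exp (2 * M) + 1) with hD
  have hApos : (0 : ℝ) < A := by exact_mod_cast hA
  have hBpos : (0 : ℝ) < B := by exact_mod_cast hB
  have hCpos : (0 : ℝ) < C := by exact_mod_cast hC
  have hexp := Real.exp_pos (2 * M)
  have hDpos : 0 < D := by positivity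
  obtain ⟨X₂, hX₂⟩ : ∃ X₂ : ℕ, D ^ ((1 : ℝ) / δ) ≤ X₂ := exists_nat_ge _
  set N₀ : ℕ := X₀ + X₁ + X₂ + 1 with hN₀
  set Fin₀ := {v : ℕ × ℕ × ℕ | 0 < v.1 ∧ 0 < v.2.1 ∧ 0 < v.2.2 ∧ A * v.1 + B * v.2.1 = C * v.2.2 ∧
      (Nat.gcd v.1 v.2.1 : ℝ) / radical (Nat.gcd v.1 v.2.1) ≤ Q ∧
      ∃ n₁ n₂ n₃ b₁ b₂ b₃ : ℕ, v.1 = b₁ ^ n₁ ∧ v.2.1 = b₂ ^ n₂ ∧ v.2.2 = b₃ ^ n₃ ∧
        2 ≤ n₁ ∧ 2 ≤ n₂ ∧ 2 ≤ n₃ ∧ n₁ < R ∧ n₂ < R ∧ n₃ < R ∧
        (1 : ℚ) / n₁ + 1 / n₂ + 1 / n₃ < 1} with hFin₀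
  have hfin : Fin₀.Finite := finite_case hDG A B C hA hB hC Q R
  refine ⟨Fin₀.ncard + 4 + (Sols A B C F Q M δ N₀).ncard, fun N hN =>
    ⟨sols_fin A B C hA hB hC F Q M δ N, ?_⟩⟩
  have hN1 : (1 : ℝ) ≤ N := by exact_mod_cast hN
  have hN0 : (0 : ℝ) < N := by linarith
  have hNε : (1 : ℝ) ≤ (N : ℝ) ^ ε := Real.one_le_rpow hN1 hε.le
  have p1 : (0 : ℝ) ≤ Fin₀.ncard := Nat.cast_nonneg _
  have p2 : (0 : ℝ) ≤ (Sols A B C F Q M δ N₀).ncard := Nat.cast_nonneg _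
  rcases Nat.lt_or_ge N N₀ with hlt | hge
  · have h1 : ((Sols A B C F Q M δ N).ncard : ℝ) ≤ (Sols A B C F Q M δ N₀).ncard := by
      exact_mod_cast Set.ncard_le_ncard (sols_mono hlt.le) (sols_fin A B C hA hB hC F Q M δ N₀)
    nlinarith
  -- large `N`
  have hDN : D ≤ (N : ℝ) ^ δ := by
    have h2 : D ^ ((1 : ℝ) / δ) ≤ N := by
      refine hX₂.trans ?_
      have : X₂ ≤ N := by omega
      exact_mod_cast this
    have h3 := Real.rpow_le_rpow (by positivity) h2 hδ.le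
    rwa [← Real.rpow_mul hDpos.le, one_div_mul_cancel hδ.ne', Real.rpow_one] at h3
  have hNδ : (0 : ℝ) < (N : ℝ) ^ δ := by positivity
  have hNδ1 : (1 : ℝ) ≤ (N : ℝ) ^ δ := Real.one_le_rpow hN1 hδ.le
  have h2δ : (N : ℝ) ^ δ * (N : ℝ) ^ δ = (N : ℝ) ^ (2 * δ) := by
    rw [← Real.rpow_add hN0]; congr 1; ring
  set Y : ℝ := (N : ℝ) ^ δ₀ with hY
  have h2Y : (N : ℝ) ^ (2 * δ) ≤ Y := Real.rpow_le_rpow_of_exponent_le hN1 hδ1
  have hDY : D * (N : ℝ) ^ δ ≤ (N : ℝ) ^ (2 * δ) := by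
    rw [← h2δ]
    exact mul_le_mul_of_nonneg_right hDN hNδ.le
  have hcoef : ∀ E : ℕ, 0 < E → (E : ℝ) ≤ (A : ℝ) + B + C →
      (E : ℝ) * (Real.exp (2 * M) * (N : ℝ) ^ δ) ≤ Y ∧ (E : ℝ) ≤ Y := by
    intro E hE hle
    have hE0 : (0 : ℝ) < E := by exact_mod_cast hE
    have h3 : (E : ℝ) * Real.exp (2 * M) ≤ D := by
      rw [hD]
      exact mul_le_mul hle (by linarith) hexp.le (by positivity)
    have h4 : (E : ℝ) ≤ D := by
      rw [hD]
      nlinarith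
    constructor
    · calc (E : ℝ) * (Real.exp (2 * M) * (N : ℝ) ^ δ) = (E : ℝ) * Real.exp (2 * M) * (N : ℝ) ^ δ := by
            ring
        _ ≤ D * (N : ℝ) ^ δ := mul_le_mul_of_nonneg_right h3 hNδ.le
        _ ≤ Y := hDY.trans h2Y
    · calc (E : ℝ) ≤ D := h4
        _ ≤ D * (N : ℝ) ^ δ := le_mul_of_one_le_right hDpos.le hNδ1
        _ ≤ Y := hDY.trans h2Y
  have hradW : ∀ {W n b s : ℕ}, IsProduct W n b s → (s : ℝ) ^ 2 ≤ M * b → Rich δ n s → W ≤ N →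
      0 < W → W ∈ Thin N ((N : ℝ) ^ (2 * δ)) := by
    intro W n b s h1 h2 h3 h4 h5
    refine ⟨h5, h4, (rad_small h1 h2 h3 h4 hN).trans ?_⟩
    have h6 : Real.exp (2 * M) ≤ D := by
      have h7 : (1 : ℝ) ≤ A := by exact_mod_cast hA
      rw [hD]
      nlinarith
    exact (mul_le_mul_of_nonneg_right h6 hNδ.le).trans hDY
  set T := Thin N ((N : ℝ) ^ (2 * δ)) with hTdef
  have hTc : (T.ncard : ℝ) ≤ (N : ℝ) ^ (8 * δ) := by
    have h := hX₁ N (by omega) (thin_finite N ((N : ℝ) ^ (2 * δ))).toFinset (fun n hn => by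
      rw [Set.Finite.mem_toFinset] at hn
      exact hn)
    rw [show 4 * (2 * δ) = 8 * δ by ring] at h
    rwa [hTdef, Set.ncard_eq_toFinset_card _ (thin_finite N ((N : ℝ) ^ (2 * δ)))]
  -- splitting
  set P := {v ∈ Sols A B C F Q M δ N | (v.1 ∈ T ∧ v.2.1 ∈ T) ∨ (v.1 ∈ T ∧ v.2.2 ∈ T) ∨
      (v.2.1 ∈ T ∧ v.2.2 ∈ T)} with hPdef
  obtain ⟨hPfin, hPcard⟩ := two_thin hA hB hC P (fun v hv => hv.1.2.2.2.1) (fun v hv => hv.2)
  set U := {v ∈ Sols A B C F Q M δ N | (((A * v.1 : ℕ) : ℤ), ((B * v.2.1 : ℕ) : ℤ),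
      ((C * v.2.2 : ℕ) : ℤ)) ∈ SolC N Y} with hUdef
  have hUfin : U.Finite := (sols_fin A B C hA hB hC F Q M δ N).subset fun v hv => hv.1
  have hUcard : (U.ncard : ℝ) ≤ (N : ℝ) ^ ε := by
    have h1 : U.ncard ≤ (SolC N Y).ncard := by
      refine Set.ncard_le_ncard_of_injOn (fun v : ℕ × ℕ × ℕ => (((A * v.1 : ℕ) : ℤ),
        ((B * v.2.1 : ℕ) : ℤ), ((C * v.2.2 : ℕ) : ℤ))) (fun v hv => hv.2) ?_ (SolC_finite N Y)
      rintro ⟨x, y, z⟩ - ⟨x', y', z'⟩ - hh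
      simp only [Prod.mk.injEq, Nat.cast_inj] at hh
      obtain ⟨e1, e2, e3⟩ := hh
      rw [Nat.eq_of_mul_eq_mul_left hA e1, Nat.eq_of_mul_eq_mul_left hB e2,
        Nat.eq_of_mul_eq_mul_left hC e3]
    have h2 : (U.ncard : ℝ) ≤ (SolC N Y).ncard := by exact_mod_cast h1
    exact h2.trans (hX₀ N (by omega))
  have hsub : Sols A B C F Q M δ N ⊆ Fin₀ ∪ (U ∪ P) := by
    intro v hv
    have hv' := hv
    obtain ⟨hx, hy, hz, he, hCN, hQ, n₁, n₂, n₃, b₁, b₂, b₃, s₁, s₂, s₃, i1, i2, i3, q1, q2, q3,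
      hsum, hor⟩ := hv
    have hAN : A * v.1 ≤ N := by omega
    have hBN : B * v.2.1 ≤ N := by omega
    have hxN : v.1 ≤ N := (Nat.le_mul_of_pos_left _ hA).trans hAN
    have hyN : v.2.1 ≤ N := (Nat.le_mul_of_pos_left _ hB).trans hBN
    have hzN : v.2.2 ≤ N := (Nat.le_mul_of_pos_left _ hC).trans hCN
    have u1 : (0 : ℝ) ≤ ((s₁ : ℝ) + 1) / n₁ := by positivity
    have u2 : (0 : ℝ) ≤ ((s₂ : ℝ) + 1) / n₂ := by positivity
    have u3 : (0 : ℝ) ≤ ((s₃ : ℝ) + 1) / n₃ := by positivity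
    have m1 : 2 ≤ n₁ := two_le (degree_pos i1) hF u2 u3 hsum
    have m2 : 2 ≤ n₂ := two_le (degree_pos i2) hF u1 u3 (by linarith)
    have m3 : 2 ≤ n₃ := two_le (degree_pos i3) hF u1 u2 (by linarith)
    rcases hor with hor | hor | hor | hor
    · have k1 := classify hA hx hN hAN i1 q1 hor.1 m1 hR1 (hcoef A hA (by linarith)).1
        (by rw [hY]; exact Real.one_le_rpow hN1 hδ₀.le)
        (Real.rpow_le_rpow_of_exponent_le hN1 hRδ) (hcoef A hA (by linarith)).2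
      have k2 := classify hB hy hN hBN i2 q2 hor.2.1 m2 hR1 (hcoef B hB (by linarith)).1
        (by rw [hY]; exact Real.one_le_rpow hN1 hδ₀.le)
        (Real.rpow_le_rpow_of_exponent_le hN1 hRδ) (hcoef B hB (by linarith)).2
      have k3 := classify hC hz hN hCN i3 q3 hor.2.2 m3 hR1 (hcoef C hC (by linarith)).1
        (by rw [hY]; exact Real.one_le_rpow hN1 hδ₀.le)
        (Real.rpow_le_rpow_of_exponent_le hN1 hRδ) (hcoef C hC (by linarith)).2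
      have g1 : Good Y ((A * v.1 : ℕ) : ℤ) := k1.elim Small.good fun h => h.1
      have g2 : Good Y ((B * v.2.1 : ℕ) : ℤ) := k2.elim Small.good fun h => h.1
      have g3 : Good Y ((C * v.2.2 : ℕ) : ℤ) := k3.elim Small.good fun h => h.1
      have hmem : (Small Y ((A * v.1 : ℕ) : ℤ) ∨ Small Y ((B * v.2.1 : ℕ) : ℤ) ∨
          Small Y ((C * v.2.2 : ℕ) : ℤ)) → v ∈ Fin₀ ∪ (U ∪ P) := by
        intro hs
        refine Or.inr (Or.inl ⟨hv', mem_SolC ?_ ?_ ?_ ?_ g1 g2 g3 hs⟩)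
        · change ((A * v.1 : ℕ) : ℤ) + ((B * v.2.1 : ℕ) : ℤ) = ((C * v.2.2 : ℕ) : ℤ)
          exact_mod_cast he
        · change (((A * v.1 : ℕ) : ℤ)).natAbs ≤ N
          rwa [Int.natAbs_natCast]
        · change (((B * v.2.1 : ℕ) : ℤ)).natAbs ≤ N
          rwa [Int.natAbs_natCast]
        · change (((C * v.2.2 : ℕ) : ℤ)).natAbs ≤ N
          rwa [Int.natAbs_natCast]
      rcases k1 with k1 | ⟨-, z1, r1⟩
      · exact hmem (Or.inl k1)
      rcases k2 with k2 | ⟨-, z2, r2⟩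
      · exact hmem (Or.inr (Or.inl k2))
      rcases k3 with k3 | ⟨-, z3, r3⟩
      · exact hmem (Or.inr (Or.inr k3))
      subst z1 z2 z3
      refine Or.inl ⟨hx, hy, hz, he, hQ, n₁, n₂, n₃, b₁, b₂, b₃, eq_pow_of_product i1,
        eq_pow_of_product i2, eq_pow_of_product i3, m1, m2, m3, r1, r2, r3, ?_⟩
      have h5 : (1 : ℝ) / n₁ + 1 / n₂ + 1 / n₃ < 1 := by
        have h6 := hsum
        simp only [Nat.cast_zero, zero_add] at h6
        linarith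
      have h7 : (((1 : ℚ) / n₁ + 1 / n₂ + 1 / n₃ : ℚ) : ℝ) < ((1 : ℚ) : ℝ) := by
        push_cast
        exact h5
      exact Rat.cast_lt.1 h7
    · exact Or.inr (Or.inr ⟨hv', Or.inl ⟨hradW i1 q1 hor.1 hxN hx, hradW i2 q2 hor.2 hyN hy⟩⟩)
    · exact Or.inr (Or.inr ⟨hv', Or.inr (Or.inl
        ⟨hradW i1 q1 hor.1 hxN hx, hradW i3 q3 hor.2 hzN hz⟩)⟩)
    · exact Or.inr (Or.inr ⟨hv', Or.inr (Or.inr
        ⟨hradW i2 q2 hor.1 hyN hy, hradW i3 q3 hor.2 hzN hz⟩)⟩)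
  have hcard : ((Sols A B C F Q M δ N).ncard : ℝ) ≤ Fin₀.ncard + (U.ncard + P.ncard) := by
    have h3 := Set.ncard_le_ncard hsub (hfin.union (hUfin.union hPfin))
    have h4 := h3.trans (Set.ncard_union_le _ _)
    have h5 := Set.ncard_union_le U P
    exact_mod_cast (by omega : (Sols A B C F Q M δ N).ncard ≤ Fin₀.ncard + (U.ncard + P.ncard))
  have hP2 : (P.ncard : ℝ) ≤ 3 * (N : ℝ) ^ ε := by
    have h6 : (P.ncard : ℝ) ≤ 3 * ((T.ncard : ℝ) * (T.ncard : ℝ)) := by exact_mod_cast hPcard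
    have h7 : (T.ncard : ℝ) * (T.ncard : ℝ) ≤ (N : ℝ) ^ (8 * δ) * (N : ℝ) ^ (8 * δ) :=
      mul_le_mul hTc hTc (Nat.cast_nonneg _) (by positivity)
    have h8 : (N : ℝ) ^ (8 * δ) * (N : ℝ) ^ (8 * δ) ≤ (N : ℝ) ^ ε := by
      rw [← Real.rpow_add hN0]
      exact Real.rpow_le_rpow_of_exponent_le hN1 (by linarith)
    linarith
  nlinarith

end Pool.Agent.Results.MP_4ffbf9_nt.SparseSolutions
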